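import Mathlib
import Pool.Agent.V1198.Arens

/-!
# MP_5068ad, Q1: open multiplication does not pass to the bidual
-/

set_option autoImplicit false
set_option linter.unusedSectionVars false

noncomputable section

open Filter Topology ZeroAtInfty

namespace Pool.Agent.Results.MP_5068ad_an.OpenArens

open Pool.Agent.V1198.AR

/-- `c₀`. -/
abbrev R : Type := C₀(ℕ, ℝ)

/-- Null sequences as elements of `c₀`. -/
def mkR (f : ℕ → ℝ) (h : Tendsto f atTop (𝓝 0)) : R where
  toFun := f
  continuous_toFun := continuous_of_discreteTopology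
  zero_at_infty' := by
    rwa [Filter.cocompact_eq_cofinite, Nat.cofinite_eq_atTop]

theorem mkR_apply (f : ℕ → ℝ) (h : Tendsto f atTop (𝓝 0)) (n : ℕ) : mkR f h n = f n := rfl

theorem R_tendsto (f : R) : Tendsto (fun n => f n) atTop (𝓝 0) := by
  have h := f.zero_at_infty'
  rwa [Filter.cocompact_eq_cofinite, Nat.cofinite_eq_atTop] at h

theorem R_abs_le (f : R) (n : ℕ) : |f n| ≤ ‖f‖ := by
  have h := f.toBCF.norm_coe_le_norm n
  rwa [ZeroAtInftyContinuousMap.norm_toBCF_eq_norm] at h

theorem R_norm_le (f : R) {M : ℝ} (hM : 0 ≤ M) (h : ∀ n, |f n| ≤ M) : ‖f‖ ≤ M := by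
  rw [← ZeroAtInftyContinuousMap.norm_toBCF_eq_norm]
  exact (BoundedContinuousFunction.norm_le hM).mpr h

/-- The sequence `κ_n = 1/(n+1)`. -/
def kap : R := mkR (fun n => 1 / ((n : ℝ) + 1)) tendsto_one_div_add_atTop_nhds_zero_nat

theorem kap_apply (n : ℕ) : kap n = 1 / ((n : ℝ) + 1) := rfl

theorem norm_kap_le : ‖kap‖ ≤ 1 := by
  refine R_norm_le _ zero_le_one fun n => ?_
  rw [kap_apply, abs_of_nonneg (by positivity), div_le_one (by positivity)]
  have : (0 : ℝ) ≤ n := Nat.cast_nonneg n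
  linarith

/-- The algebra `c₀ ⊕ c₀ t` with `t² = κ t` and the norm `‖u‖ + ‖v‖`. -/
def AA : Type := WithLp 1 (R × R)

instance : NormedAddCommGroup AA := inferInstanceAs (NormedAddCommGroup (WithLp 1 (R × R)))

instance : NormedSpace ℝ AA := inferInstanceAs (NormedSpace ℝ (WithLp 1 (R × R)))

instance : CompleteSpace AA := inferInstanceAs (CompleteSpace (WithLp 1 (R × R)))

/-- The element `u + v t`. -/
def mk2 (u v : R) : AA := WithLp.toLp 1 (u, v)

/-- The first component. -/
def U (x : AA) : R := WithLp.fst (p := 1) (α := R) (β := R) x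

/-- The second component. -/
def V (x : AA) : R := WithLp.snd (p := 1) (α := R) (β := R) x

theorem U_mk (u v : R) : U (mk2 u v) = u := rfl
theorem V_mk (u v : R) : V (mk2 u v) = v := rfl
theorem U_add (x y : AA) : U (x + y) = U x + U y := rfl
theorem V_add (x y : AA) : V (x + y) = V x + V y := rfl
theorem U_sub (x y : AA) : U (x - y) = U x - U y := rfl
theorem V_sub (x y : AA) : V (x - y) = V x - V y := rfl
theorem U_smul (r : ℝ) (x : AA) : U (r • x) = r • U x := rfl
theorem V_smul (r : ℝ) (x : AA) : V (r • x) = r • V x := rfl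
theorem U_zero : U 0 = 0 := rfl
theorem V_zero : V 0 = 0 := rfl

theorem AA_ext {x y : AA} (h1 : U x = U y) (h2 : V x = V y) : x = y := by
  have h : (WithLp.ofLp (p := 1) (V := R × R) x) = WithLp.ofLp (p := 1) (V := R × R) y :=
    Prod.ext h1 h2
  exact WithLp.ofLp_injective 1 h

theorem AA_norm (x : AA) : ‖x‖ = ‖U x‖ + ‖V x‖ := WithLp.prod_norm_eq_of_L1 (α := R) (β := R) x

instance : Mul AA := ⟨fun x y => mk2 (U x * U y) (U x * V y + V x * U y + kap * (V x * V y))⟩

theorem U_mul (x y : AA) : U (x * y) = U x * U y := rfl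

theorem V_mul (x y : AA) : V (x * y) = U x * V y + V x * U y + kap * (V x * V y) := rfl

instance : NonUnitalNormedRing AA :=
  { (inferInstance : NormedAddCommGroup AA) with
    left_distrib := fun x y z => by
      apply AA_ext
      · rw [U_add, U_mul, U_mul, U_mul, U_add, mul_add]
      · rw [V_add, V_mul, V_mul, V_mul, V_add, U_add]
        simp only [mul_add]
        abel
    right_distrib := fun x y z => by
      apply AA_ext
      · rw [U_add, U_mul, U_mul, U_mul, U_add, add_mul]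
      · rw [V_add, V_mul, V_mul, V_mul, V_add, U_add]
        simp only [mul_add, add_mul]
        abel
    zero_mul := fun x => by
      apply AA_ext
      · rw [U_mul, U_zero, zero_mul]
      · rw [V_mul]
        simp only [U_zero, V_zero, zero_mul, mul_zero, add_zero]
    mul_zero := fun x => by
      apply AA_ext
      · rw [U_mul, U_zero, mul_zero]
      · rw [V_mul]
        simp only [U_zero, V_zero, zero_mul, mul_zero, add_zero]
    mul_assoc := fun x y z => by
      apply AA_ext
      · rw [U_mul, U_mul, U_mul, U_mul, mul_assoc]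
      · rw [V_mul, V_mul, V_mul, V_mul, U_mul, U_mul]
        ext n
        simp only [ZeroAtInftyContinuousMap.coe_add, ZeroAtInftyContinuousMap.coe_mul,
          Pi.add_apply, Pi.mul_apply]
        ring
    norm_mul_le := fun x y => by
      rw [AA_norm, AA_norm, AA_norm, U_mul, V_mul]
      have h1 : ‖U x * U y‖ ≤ ‖U x‖ * ‖U y‖ := norm_mul_le _ _
      have h2 : ‖U x * V y‖ ≤ ‖U x‖ * ‖V y‖ := norm_mul_le _ _
      have h3 : ‖V x * U y‖ ≤ ‖V x‖ * ‖U y‖ := norm_mul_le _ _
      have h4 : ‖kap * (V x * V y)‖ ≤ ‖V x‖ * ‖V y‖ := by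
        refine (norm_mul_le _ _).trans ?_
        refine (mul_le_mul norm_kap_le (norm_mul_le _ _) (norm_nonneg _) zero_le_one).trans ?_
        rw [one_mul]
      have h5 := norm_add₃_le (a := U x * V y) (b := V x * U y) (c := kap * (V x * V y))
      nlinarith }

instance : IsScalarTower ℝ AA AA := ⟨fun r x y => by
  show (r • x) * y = r • (x * y)
  apply AA_ext
  · rw [U_smul, U_mul, U_mul, U_smul, smul_mul_assoc]
  · rw [V_smul, V_mul, V_mul, U_smul, V_smul]
    ext n
    simp only [ZeroAtInftyContinuousMap.coe_add, ZeroAtInftyContinuousMap.coe_mul,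
      ZeroAtInftyContinuousMap.coe_smul, Pi.add_apply, Pi.mul_apply, Pi.smul_apply, smul_eq_mul]
    ring⟩

instance : SMulCommClass ℝ AA AA := ⟨fun r x y => by
  show r • (x * y) = x * (r • y)
  apply AA_ext
  · rw [U_smul, U_mul, U_mul, U_smul, mul_smul_comm]
  · rw [V_smul, V_mul, V_mul, U_smul, V_smul]
    ext n
    simp only [ZeroAtInftyContinuousMap.coe_add, ZeroAtInftyContinuousMap.coe_mul,
      ZeroAtInftyContinuousMap.coe_smul, Pi.add_apply, Pi.mul_apply, Pi.smul_apply, smul_eq_mul]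
    ring⟩

/-! ### Openness of the multiplication of `AA` -/

theorem real_open (x y : ℝ) {ε : ℝ} (hε : 0 < ε) : ∃ δ : ℝ, 0 < δ ∧ ∀ z, |z - x * y| < δ →
    ∃ x' y', |x' - x| < ε ∧ |y' - y| < ε ∧ x' * y' = z := by
  by_cases hx : x = 0
  · by_cases hy : y = 0
    · refine ⟨(ε / 2) ^ 2, by positivity, fun z hz => ?_⟩
      subst hx hy
      rw [mul_zero, sub_zero] at hz
      rcases eq_or_ne z 0 with h0 | h0
      · exact ⟨0, 0, by simpa using hε, by simpa using hε, by rw [h0, mul_zero]⟩
      have hs : 0 < Real.sqrt |z| := Real.sqrt_pos.mpr (abs_pos.mpr h0)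
      have hs2 : Real.sqrt |z| < ε := by
        have h1 : Real.sqrt |z| ≤ ε / 2 := by
          rw [Real.sqrt_le_left (by positivity)]
          exact hz.le
        linarith
      have hss : Real.sqrt |z| * Real.sqrt |z| = |z| := Real.mul_self_sqrt (abs_nonneg z)
      refine ⟨Real.sqrt |z|, z / Real.sqrt |z|, ?_, ?_, mul_div_cancel₀ _ hs.ne'⟩
      · rwa [sub_zero, abs_of_pos hs]
      · rw [sub_zero, abs_div, abs_of_pos hs, div_lt_iff₀ hs]
        calc |z| = Real.sqrt |z| * Real.sqrt |z| := hss.symm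
          _ < ε * Real.sqrt |z| := mul_lt_mul_of_pos_right hs2 hs
    · refine ⟨ε * |y|, mul_pos hε (abs_pos.mpr hy), fun z hz => ?_⟩
      refine ⟨z / y, y, ?_, by rwa [sub_self, abs_zero], div_mul_cancel₀ _ hy⟩
      have h1 : z / y - x = (z - x * y) / y := by field_simp
      rw [h1, abs_div, div_lt_iff₀ (abs_pos.mpr hy)]
      exact hz
  · refine ⟨ε * |x|, mul_pos hε (abs_pos.mpr hx), fun z hz => ?_⟩
    refine ⟨x, z / x, by rwa [sub_self, abs_zero], ?_, mul_div_cancel₀ _ hx⟩
    have h1 : z / x - y = (z - x * y) / x := by field_simp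
    rw [h1, abs_div, div_lt_iff₀ (abs_pos.mpr hx)]
    exact hz

/-- Openness of the multiplication of `ℝ ⊕ ℝ t`, `t² = κ t`, `κ > 0`. -/
theorem fib_open {k : ℝ} (hk : 0 < k) (u v u' v' : ℝ) {ε : ℝ} (hε : 0 < ε) :
    ∃ δ : ℝ, 0 < δ ∧ ∀ p q, |p - u * u'| < δ → |q - (u * v' + v * u' + k * (v * v'))| < δ →
      ∃ a b a' b', |a - u| < ε ∧ |b - v| < ε ∧ |a' - u'| < ε ∧ |b' - v'| < ε ∧
        a * a' = p ∧ a * b' + b * a' + k * (b * b') = q := by
  have hη : 0 < min ε (k * ε / 2) := lt_min hε (by positivity)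
  obtain ⟨δ1, hδ1, h1⟩ := real_open u u' hη
  obtain ⟨δ2, hδ2, h2⟩ := real_open (u + k * v) (u' + k * v') hη
  have hδ3 : 0 < δ2 / (1 + k) := by positivity
  refine ⟨min δ1 (δ2 / (1 + k)), lt_min hδ1 hδ3, fun p q hp hq => ?_⟩
  obtain ⟨s, s', hs, hs', hss⟩ := h1 p (hp.trans_le (min_le_left _ _))
  have hpq : |p + k * q - (u + k * v) * (u' + k * v')| < δ2 := by
    have e1 : p + k * q - (u + k * v) * (u' + k * v') =
        (p - u * u') + k * (q - (u * v' + v * u' + k * (v * v'))) := by ring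
    rw [e1]
    refine (abs_add_le _ _).trans_lt ?_
    rw [abs_mul, abs_of_pos hk]
    have e2 : |p - u * u'| < δ2 / (1 + k) := hp.trans_le (min_le_right _ _)
    have e3 : |q - (u * v' + v * u' + k * (v * v'))| < δ2 / (1 + k) :=
      hq.trans_le (min_le_right _ _)
    have e4 := mul_lt_mul_of_pos_left e3 hk
    have e5 : δ2 / (1 + k) + k * (δ2 / (1 + k)) = δ2 := by field_simp
    linarith
  obtain ⟨r, r', hr, hr', hrr⟩ := h2 (p + k * q) hpq
  have hb : ∀ s r u v : ℝ, |s - u| < min ε (k * ε / 2) → |r - (u + k * v)| < min ε (k * ε / 2) →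
      |(r - s) / k - v| < ε := by
    intro s r u v h3 h4
    have e1 : (r - s) / k - v = ((r - (u + k * v)) - (s - u)) / k := by field_simp; ring
    rw [e1, abs_div, abs_of_pos hk, div_lt_iff₀ hk]
    refine (abs_sub _ _).trans_lt ?_
    have e2 := h3.trans_le (min_le_right _ _)
    have e3 := h4.trans_le (min_le_right _ _)
    linarith
  refine ⟨s, (r - s) / k, s', (r' - s') / k, hs.trans_le (min_le_left _ _), hb s r u v hs hr,
    hs'.trans_le (min_le_left _ _), hb s' r' u' v' hs' hr', hss, ?_⟩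
  have e6 : q = (r * r' - s * s') / k := by
    rw [hrr, hss]
    field_simp
    ring
  rw [e6]
  field_simp
  ring

theorem exists_delta (d : ℕ → ℝ) (hd : ∀ n, 0 < d n) (N : ℕ) :
    ∃ δ : ℝ, 0 < δ ∧ ∀ n, n < N → δ ≤ d n := by
  induction N with
  | zero => exact ⟨1, one_pos, fun n hn => absurd hn (Nat.not_lt_zero n)⟩
  | succ N ih =>
    obtain ⟨δ, hδ, h⟩ := ih
    refine ⟨min δ (d N), lt_min hδ (hd N), fun n hn => ?_⟩
    rcases Nat.lt_succ_iff_lt_or_eq.mp hn with h1 | h1
    · exact (min_le_left _ _).trans (h n h1)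
    · rw [h1]; exact min_le_right _ _

theorem U_mul_apply (x y : AA) (n : ℕ) : U (x * y) n = U x n * U y n := rfl

theorem V_mul_apply (x y : AA) (n : ℕ) :
    V (x * y) n = U x n * V y n + V x n * U y n + kap n * (V x n * V y n) := rfl

/-- The multiplication of `AA` is open. -/
theorem AA_open : IsOpenMul (fun x y : AA => x * y) := by
  intro x y ε hε
  -- small tails
  have hη : 0 < ε / 32 := by positivity
  have htail : ∃ N : ℕ, ∀ n, N ≤ n → |U x n| < ε / 32 ∧ |V x n| < ε / 32 ∧ |U y n| < ε / 32 ∧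
      |V y n| < ε / 32 := by
    have h : ∀ f : R, ∀ᶠ n in atTop, |f n| < ε / 32 := fun f => by
      have h1 := (R_tendsto f).abs
      rw [abs_zero] at h1
      exact h1.eventually_lt_const hη
    exact eventually_atTop.mp ((h (U x)).and ((h (V x)).and ((h (U y)).and (h (V y)))))
  obtain ⟨N, hN⟩ := htail
  have hkap : ∀ n, 0 < kap n := fun n => by rw [kap_apply]; positivity
  have hkap1 : ∀ n, kap n ≤ 1 := fun n => (le_abs_self _).trans ((R_abs_le kap n).trans norm_kap_le)
  choose d hd hfib using fun n => fib_open (hkap n) (U x n) (V x n) (U y n) (V y n)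
    (ε := ε / 4) (by positivity)
  obtain ⟨δ, hδ, hδd⟩ := exists_delta d hd N
  refine ⟨min δ ((ε / 32) ^ 2), lt_min hδ (by positivity), fun z hz => ?_⟩
  have hzU : ∀ n, |U z n - U x n * U y n| < min δ ((ε / 32) ^ 2) := fun n => by
    have h1 := R_abs_le (U (z - x * y)) n
    have h2 : ‖U (z - x * y)‖ ≤ ‖z - x * y‖ := by
      rw [AA_norm]
      exact le_add_of_nonneg_right (norm_nonneg _)
    exact (h1.trans h2).trans_lt hz
  have hzV : ∀ n, |V z n - (U x n * V y n + V x n * U y n + kap n * (V x n * V y n))| <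
      min δ ((ε / 32) ^ 2) := fun n => by
    have h1 := R_abs_le (V (z - x * y)) n
    have h2 : ‖V (z - x * y)‖ ≤ ‖z - x * y‖ := by
      rw [AA_norm]
      exact le_add_of_nonneg_left (norm_nonneg _)
    exact (h1.trans h2).trans_lt hz
  -- the finitely many first coordinates
  have hfin : ∀ n, ∃ w : ℝ × ℝ × ℝ × ℝ, n < N → |w.1 - U x n| < ε / 4 ∧
      |w.2.1 - V x n| < ε / 4 ∧ |w.2.2.1 - U y n| < ε / 4 ∧ |w.2.2.2 - V y n| < ε / 4 ∧
        w.1 * w.2.2.1 = U z n ∧
          w.1 * w.2.2.2 + w.2.1 * w.2.2.1 + kap n * (w.2.1 * w.2.2.2) = V z n := fun n => by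
    by_cases hn : n < N
    · obtain ⟨a, b, a', b', h1, h2, h3, h4, h5, h6⟩ := hfib n (U z n) (V z n)
        ((hzU n).trans_le ((min_le_left _ _).trans (hδd n hn)))
        ((hzV n).trans_le ((min_le_left _ _).trans (hδd n hn)))
      exact ⟨(a, b, a', b'), fun _ => ⟨h1, h2, h3, h4, h5, h6⟩⟩
    · exact ⟨(0, 0, 0, 0), fun h => absurd h hn⟩
  choose w hw using hfin
  -- the tails
  let ρ : ℕ → ℝ := fun n => Real.sqrt (|U z n| + |V z n|)
  have hρ0 : Tendsto ρ atTop (𝓝 0) := by
    have h1 := ((R_tendsto (U z)).abs.add (R_tendsto (V z)).abs).sqrt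
    rwa [abs_zero, add_zero, Real.sqrt_zero] at h1
  have hρn : ∀ n, 0 ≤ ρ n := fun n => Real.sqrt_nonneg _
  have hρsq : ∀ n, ρ n * ρ n = |U z n| + |V z n| := fun n => Real.mul_self_sqrt (by positivity)
  have hdivle : ∀ n (c : ℝ), |c| ≤ |U z n| + |V z n| → |c / ρ n| ≤ ρ n := by
    intro n c hc
    rcases (hρn n).eq_or_lt with h | h
    · rw [← h, div_zero, abs_zero]
    · rw [abs_div, abs_of_pos h, div_le_iff₀ h, hρsq]
      exact hc
  have hρs : ∀ n, N ≤ n → ρ n ≤ 3 * (ε / 32) := by
    intro n hn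
    obtain ⟨h1, h2, h3, h4⟩ := hN n hn
    have hzU' := (hzU n).trans_le (min_le_right _ _)
    have hzV' := (hzV n).trans_le (min_le_right _ _)
    have hm : ∀ a b : ℝ, |a| < ε / 32 → |b| < ε / 32 → |a * b| ≤ (ε / 32) ^ 2 := by
      intro a b ha hb
      rw [abs_mul, sq]
      exact mul_le_mul ha.le hb.le (abs_nonneg _) hη.le
    have e1 : |U z n| ≤ 2 * (ε / 32) ^ 2 := by
      have := abs_sub_abs_le_abs_sub (U z n) (U x n * U y n)
      have := hm _ _ h1 h3
      linarith
    have e2 : |V z n| ≤ 4 * (ε / 32) ^ 2 := by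
      have t1 := abs_sub_abs_le_abs_sub (V z n)
        (U x n * V y n + V x n * U y n + kap n * (V x n * V y n))
      have t2 : |U x n * V y n + V x n * U y n + kap n * (V x n * V y n)| ≤ 3 * (ε / 32) ^ 2 := by
        refine (abs_add_three _ _ _).trans ?_
        have t3 := hm _ _ h1 h4
        have t4 := hm _ _ h2 h3
        have t5 := hm _ _ h2 h4
        have t6 : |kap n * (V x n * V y n)| ≤ (ε / 32) ^ 2 := by
          rw [abs_mul, abs_of_pos (hkap n)]
          calc kap n * |V x n * V y n| ≤ 1 * |V x n * V y n| :=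
                mul_le_mul_of_nonneg_right (hkap1 n) (abs_nonneg _)
            _ ≤ _ := by rw [one_mul]; exact t5
        linarith
      linarith
    show Real.sqrt (|U z n| + |V z n|) ≤ _
    rw [Real.sqrt_le_left (by positivity)]
    nlinarith
  -- the factors
  let a : ℕ → ℝ := fun n => if n < N then (w n).1 else ρ n
  let b : ℕ → ℝ := fun n => if n < N then (w n).2.1 else 0
  let a' : ℕ → ℝ := fun n => if n < N then (w n).2.2.1 else U z n / ρ n
  let b' : ℕ → ℝ := fun n => if n < N then (w n).2.2.2 else V z n / ρ n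
  have hgt : ∀ᶠ n in atTop, ¬ n < N := by
    filter_upwards [Filter.eventually_ge_atTop N] with n hn
    omega
  have hUle : ∀ n, |U z n| ≤ |U z n| + |V z n| := fun n => le_add_of_nonneg_right (abs_nonneg _)
  have hVle : ∀ n, |V z n| ≤ |U z n| + |V z n| := fun n => le_add_of_nonneg_left (abs_nonneg _)
  have ha : Tendsto a atTop (𝓝 0) := by
    refine hρ0.congr' ?_
    filter_upwards [hgt] with n hn
    simp only [a, if_neg hn]
  have hb : Tendsto b atTop (𝓝 0) := by
    refine tendsto_const_nhds.congr' ?_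
    filter_upwards [hgt] with n hn
    simp only [b, if_neg hn]
  have ha' : Tendsto a' atTop (𝓝 0) := by
    refine squeeze_zero_norm' ?_ hρ0
    filter_upwards [hgt] with n hn
    simp only [a', if_neg hn]
    exact hdivle n _ (hUle n)
  have hb' : Tendsto b' atTop (𝓝 0) := by
    refine squeeze_zero_norm' ?_ hρ0
    filter_upwards [hgt] with n hn
    simp only [b', if_neg hn]
    exact hdivle n _ (hVle n)
  -- estimates for differences
  have hnormlt : ∀ (f g : R), (∀ n, |f n - g n| ≤ ε / 4) → ‖f - g‖ ≤ ε / 4 := fun f g h =>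
    R_norm_le _ (by positivity) fun n => h n
  have e1 : ∀ n, |a n - U x n| ≤ ε / 4 := fun n => by
    by_cases hn : n < N
    · simp only [a, if_pos hn]
      exact (hw n hn).1.le
    · simp only [a, if_neg hn]
      have h1 := hρs n (not_lt.mp hn)
      have h2 := (hN n (not_lt.mp hn)).1
      refine (abs_sub _ _).trans ?_
      rw [abs_of_nonneg (hρn n)]
      linarith
  have e2 : ∀ n, |b n - V x n| ≤ ε / 4 := fun n => by
    by_cases hn : n < N
    · simp only [b, if_pos hn]
      exact (hw n hn).2.1.le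
    · simp only [b, if_neg hn]
      have h2 := (hN n (not_lt.mp hn)).2.1
      rw [zero_sub, abs_neg]
      linarith
  have e3 : ∀ n, |a' n - U y n| ≤ ε / 4 := fun n => by
    by_cases hn : n < N
    · simp only [a', if_pos hn]
      exact (hw n hn).2.2.1.le
    · simp only [a', if_neg hn]
      have h1 := hρs n (not_lt.mp hn)
      have h2 := (hN n (not_lt.mp hn)).2.2.1
      have h3 := hdivle n _ (hUle n)
      refine (abs_sub _ _).trans ?_
      linarith
  have e4 : ∀ n, |b' n - V y n| ≤ ε / 4 := fun n => by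
    by_cases hn : n < N
    · simp only [b', if_pos hn]
      exact (hw n hn).2.2.2.1.le
    · simp only [b', if_neg hn]
      have h1 := hρs n (not_lt.mp hn)
      have h2 := (hN n (not_lt.mp hn)).2.2.2
      have h3 := hdivle n _ (hVle n)
      refine (abs_sub _ _).trans ?_
      linarith
  refine ⟨mk2 (mkR a ha) (mkR b hb), mk2 (mkR a' ha') (mkR b' hb'), ?_, ?_, ?_⟩
  · rw [AA_norm, U_sub, V_sub, U_mk, V_mk]
    have h1 := hnormlt (mkR a ha) (U x) e1
    have h2 := hnormlt (mkR b hb) (V x) e2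
    linarith
  · rw [AA_norm, U_sub, V_sub, U_mk, V_mk]
    have h1 := hnormlt (mkR a' ha') (U y) e3
    have h2 := hnormlt (mkR b' hb') (V y) e4
    linarith
  · have hz0 : ∀ n, ρ n = 0 → U z n = 0 ∧ V z n = 0 := fun n h => by
      have h1 := hρsq n
      rw [h, mul_zero] at h1
      constructor
      · exact abs_eq_zero.mp (le_antisymm (by linarith [abs_nonneg (V z n)]) (abs_nonneg _))
      · exact abs_eq_zero.mp (le_antisymm (by linarith [abs_nonneg (U z n)]) (abs_nonneg _))
    apply AA_ext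
    · ext n
      rw [U_mul_apply, U_mk, U_mk, mkR_apply, mkR_apply]
      by_cases hn : n < N
      · simp only [a, a', if_pos hn]
        exact (hw n hn).2.2.2.2.1
      · simp only [a, a', if_neg hn]
        rcases eq_or_ne (ρ n) 0 with h | h
        · rw [h, zero_mul, (hz0 n h).1]
        · exact mul_div_cancel₀ _ h
    · ext n
      rw [V_mul_apply, U_mk, U_mk, V_mk, V_mk, mkR_apply, mkR_apply, mkR_apply, mkR_apply]
      by_cases hn : n < N
      · simp only [a, a', b, b', if_pos hn]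
        exact (hw n hn).2.2.2.2.2
      · simp only [a, a', b, b', if_neg hn]
        rw [zero_mul, zero_mul, mul_zero, add_zero, add_zero]
        rcases eq_or_ne (ρ n) 0 with h | h
        · rw [h, zero_mul, (hz0 n h).2]
        · exact mul_div_cancel₀ _ h

/-! ### The bidual -/

/-- The coordinate functionals. -/
def fU (n : ℕ) : Dl AA :=
  LinearMap.mkContinuous
    { toFun := fun x => U x n
      map_add' := fun _ _ => rfl
      map_smul' := fun _ _ => rfl } 1 fun x => by
      rw [one_mul, AA_norm]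
      exact (R_abs_le (U x) n).trans (le_add_of_nonneg_right (norm_nonneg _))

/-- The coordinate functionals. -/
def fV (n : ℕ) : Dl AA :=
  LinearMap.mkContinuous
    { toFun := fun x => V x n
      map_add' := fun _ _ => rfl
      map_smul' := fun _ _ => rfl } 1 fun x => by
      rw [one_mul, AA_norm]
      exact (R_abs_le (V x) n).trans (le_add_of_nonneg_left (norm_nonneg _))

theorem ev_fU (n : ℕ) (x : AA) : ev (fU n) x = U x n := rfl

theorem ev_fV (n : ℕ) (x : AA) : ev (fV n) x = V x n := rfl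

theorem norm_fU_le (n : ℕ) : ‖fU n‖ ≤ 1 := LinearMap.mkContinuous_norm_le _ zero_le_one _

theorem norm_fV_le (n : ℕ) : ‖fV n‖ ≤ 1 := LinearMap.mkContinuous_norm_le _ zero_le_one _

theorem arens1_U (F G : Bd AA) (n : ℕ) :
    Ev (arens1 F G) (fU n) = Ev F (fU n) * Ev G (fU n) := by
  rw [Ev_arens1]
  have h1 : Gf G (fU n) = Ev G (fU n) • fU n := by
    refine dl_ext fun a => ?_
    rw [ev_Gf, ev_smul, ev_fU]
    have h2 : fa (fU n) a = U a n • fU n := by
      refine dl_ext fun b => ?_
      rw [ev_fa, ev_fU, ev_smul, ev_fU]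
      rfl
    rw [h2, Ev_smul]
    ring
  rw [h1, Ev_smul]
  ring

theorem arens2_U (F G : Bd AA) (n : ℕ) :
    Ev (arens2 F G) (fU n) = Ev F (fU n) * Ev G (fU n) := by
  rw [Ev_arens2]
  have h1 : fF (fU n) F = Ev F (fU n) • fU n := by
    refine dl_ext fun a => ?_
    rw [ev_fF, ev_smul, ev_fU]
    have h2 : af a (fU n) = U a n • fU n := by
      refine dl_ext fun b => ?_
      rw [ev_af, ev_fU, ev_smul, ev_fU, U_mul_apply]
      ring
    rw [h2, Ev_smul]
    ring
  rw [h1, Ev_smul]

theorem arens1_V (F G : Bd AA) (n : ℕ) :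
    Ev (arens1 F G) (fV n) = Ev F (fU n) * Ev G (fV n) + Ev F (fV n) * Ev G (fU n) +
      kap n * (Ev F (fV n) * Ev G (fV n)) := by
  rw [Ev_arens1]
  have h1 : Gf G (fV n) = Ev G (fV n) • fU n + Ev G (fU n) • fV n +
      (kap n * Ev G (fV n)) • fV n := by
    refine dl_ext fun a => ?_
    rw [ev_Gf, ev_add, ev_add, ev_smul, ev_smul, ev_smul, ev_fU, ev_fV]
    have h2 : fa (fV n) a = U a n • fV n + V a n • fU n + (kap n * V a n) • fV n := by
      refine dl_ext fun b => ?_
      rw [ev_fa, ev_fV, ev_add, ev_add, ev_smul, ev_smul, ev_smul, ev_fU, ev_fV, V_mul_apply]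
      ring
    rw [h2, Ev_add, Ev_add, Ev_smul, Ev_smul, Ev_smul]
    ring
  rw [h1, Ev_add, Ev_add, Ev_smul, Ev_smul, Ev_smul]
  ring

theorem arens2_V (F G : Bd AA) (n : ℕ) :
    Ev (arens2 F G) (fV n) = Ev F (fU n) * Ev G (fV n) + Ev F (fV n) * Ev G (fU n) +
      kap n * (Ev F (fV n) * Ev G (fV n)) := by
  rw [Ev_arens2]
  have h1 : fF (fV n) F = Ev F (fV n) • fU n + Ev F (fU n) • fV n +
      (kap n * Ev F (fV n)) • fV n := by
    refine dl_ext fun a => ?_
    rw [ev_fF, ev_add, ev_add, ev_smul, ev_smul, ev_smul, ev_fU, ev_fV]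
    have h2 : af a (fV n) = U a n • fV n + V a n • fU n + (kap n * V a n) • fV n := by
      refine dl_ext fun b => ?_
      rw [ev_af, ev_fV, ev_add, ev_add, ev_smul, ev_smul, ev_smul, ev_fU, ev_fV, V_mul_apply]
      ring
    rw [h2, Ev_add, Ev_add, Ev_smul, Ev_smul, Ev_smul]
    ring
  rw [h1, Ev_add, Ev_add, Ev_smul, Ev_smul, Ev_smul]
  ring

/-- The weak* limit of the elements `1_{[0,N]} t`. -/
theorem exists_T : ∃ F : Bd AA, ∀ n, Ev F (fU n) = 0 ∧ Ev F (fV n) = 1 := by
  let g : ℕ → R := fun N => mkR (fun n => if n ≤ N then 1 else 0) (by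
    refine tendsto_const_nhds.congr' ?_
    filter_upwards [Filter.eventually_gt_atTop N] with n hn
    rw [if_neg (by omega)])
  have hg : ∀ N n, g N n = if n ≤ N then 1 else 0 := fun _ _ => rfl
  have hgn : ∀ N, ‖mk2 0 (g N)‖ ≤ 1 := fun N => by
    rw [AA_norm, U_mk, V_mk, norm_zero, zero_add]
    refine R_norm_le _ zero_le_one fun n => ?_
    rw [hg]
    split_ifs <;> simp
  obtain ⟨F, -, hF⟩ := exists_cluster (Ultrafilter.of (atTop : Filter ℕ))
    (fun N => mk2 0 (g N)) hgn
  have hle : ((Ultrafilter.of (atTop : Filter ℕ) : Ultrafilter ℕ) : Filter ℕ) ≤ atTop :=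
    Ultrafilter.of_le _
  refine ⟨F, fun n => ⟨?_, ?_⟩⟩
  · refine tendsto_nhds_unique (hF (fU n)) (tendsto_const_nhds.congr fun N => ?_)
    rfl
  · refine tendsto_nhds_unique (hF (fV n)) ((tendsto_const_nhds.congr' ?_).mono_left hle)
    filter_upwards [Filter.eventually_ge_atTop n] with N hN
    rw [ev_fV, V_mk, hg, if_pos hN]

/-- The unit vector `e_n`. -/
def un (n : ℕ) (c : ℝ) : AA := mk2 (mkR (fun m => if m = n then c else 0) (by
  refine tendsto_const_nhds.congr' ?_
  filter_upwards [Filter.eventually_gt_atTop n] with m hm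
  rw [if_neg (by omega)])) 0

theorem U_un (n : ℕ) (c : ℝ) : U (un n c) n = c := by
  show (if n = n then c else 0) = c
  rw [if_pos rfl]

theorem V_un (n : ℕ) (c : ℝ) : V (un n c) n = 0 := rfl

theorem norm_un_le (n : ℕ) {c : ℝ} (hc : 0 ≤ c) : ‖un n c‖ ≤ c := by
  rw [AA_norm]
  have h1 : ‖V (un n c)‖ = 0 := norm_zero
  rw [h1, add_zero]
  refine R_norm_le _ hc fun m => ?_
  show |(if m = n then c else 0)| ≤ c
  split_ifs
  · rw [abs_of_nonneg hc]
  · rw [abs_zero]; exact hc

/-- Neither of the two Arens products is open. -/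
theorem not_open (m : Bd AA → Bd AA → Bd AA)
    (hU : ∀ F G n, Ev (m F G) (fU n) = Ev F (fU n) * Ev G (fU n))
    (hV : ∀ F G n, Ev (m F G) (fV n) = Ev F (fU n) * Ev G (fV n) + Ev F (fV n) * Ev G (fU n) +
      kap n * (Ev F (fV n) * Ev G (fV n))) : ¬ IsOpenMul m := by
  intro hopen
  obtain ⟨T, hT⟩ := exists_T
  obtain ⟨δ, hδ, h⟩ := hopen T T (1 / 2) (by norm_num)
  have hc : 0 < δ / 2 := by positivity
  have hs : 0 < Real.sqrt (δ / 2) := Real.sqrt_pos.mpr hc
  -- choose `n`
  have hkap : Tendsto (fun n => (5 / 4) * kap n) atTop (𝓝 0) := by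
    have h1 := (R_tendsto kap).const_mul (5 / 4 : ℝ)
    rwa [mul_zero] at h1
  obtain ⟨n, hn⟩ := (hkap.eventually_lt_const hs).exists
  have hkn : 0 < kap n := by rw [kap_apply]; positivity
  obtain ⟨F, G, hF, hG, hFG⟩ := h (m T T + emb (un n (δ / 2))) (by
    rw [add_sub_cancel_left]
    exact ((norm_emb_le _).trans (norm_un_le n hc.le)).trans_lt (by linarith))
  -- coordinates
  have hFv : |Ev F (fV n) - 1| ≤ 1 / 2 := by
    have h1 := Ev_le (F - T) (fV n)
    rw [Ev_sub', (hT n).2] at h1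
    have h2 : ‖F - T‖ * ‖fV n‖ ≤ 1 / 2 * 1 :=
      mul_le_mul hF.le (norm_fV_le n) (norm_nonneg _) (by norm_num)
    linarith
  have hGv : |Ev G (fV n) - 1| ≤ 1 / 2 := by
    have h1 := Ev_le (G - T) (fV n)
    rw [Ev_sub', (hT n).2] at h1
    have h2 : ‖G - T‖ * ‖fV n‖ ≤ 1 / 2 * 1 :=
      mul_le_mul hG.le (norm_fV_le n) (norm_nonneg _) (by norm_num)
    linarith
  have e1 : Ev F (fU n) * Ev G (fU n) = δ / 2 := by
    rw [← hU, hFG, Ev_add', hU, (hT n).1, mul_zero, zero_add, Ev_emb, ev_fU, U_un]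
  have e2 : Ev F (fU n) * Ev G (fV n) + Ev F (fV n) * Ev G (fU n) +
      kap n * (Ev F (fV n) * Ev G (fV n)) = kap n := by
    rw [← hV, hFG, Ev_add', hV, (hT n).1, (hT n).2, Ev_emb, ev_fV, V_un]
    ring
  set a := Ev F (fU n)
  set b := Ev G (fU n)
  set p := Ev F (fV n)
  set q := Ev G (fV n)
  rw [abs_le] at hFv hGv
  -- `|a q + p b| ≥ √(ab)`
  have key : ∀ a b : ℝ, 0 < a → a * b = δ / 2 → Real.sqrt (δ / 2) ≤ a * q + p * b := by
    intro a b ha hab
    have hb : 0 < b := by
      by_contra hb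
      have : a * b ≤ 0 := mul_nonpos_of_nonneg_of_nonpos ha.le (not_lt.mp hb)
      linarith
    have h1 : Real.sqrt (δ / 2) ≤ (a + b) / 2 := by
      rw [Real.sqrt_le_left (by positivity)]
      nlinarith [sq_nonneg (a - b)]
    nlinarith
  have h3 : a * q + p * b = kap n * (1 - p * q) := by linarith
  have h4 : |kap n * (1 - p * q)| ≤ (5 / 4) * kap n := by
    rw [abs_mul, abs_of_pos hkn, mul_comm]
    refine mul_le_mul_of_nonneg_right ?_ hkn.le
    rw [abs_le]
    constructor <;> nlinarith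
  have ha0 : a ≠ 0 := by
    intro ha
    rw [ha, zero_mul] at e1
    linarith
  rcases lt_or_gt_of_ne ha0 with ha | ha
  · have h5 := key (-a) (-b) (by linarith) (by rw [neg_mul_neg]; exact e1)
    have h6 := neg_le_abs (kap n * (1 - p * q))
    nlinarith
  · have h5 := key a b ha e1
    have h6 := le_abs_self (kap n * (1 - p * q))
    nlinarith

/-- There is a Banach algebra whose multiplication is open, while the multiplication of the bidual
is open for neither of the two Arens products. -/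
theorem result :
    ∃ (A : Type) (_ : NonUnitalNormedRing A) (_ : NormedSpace ℝ A) (_ : CompleteSpace A)
      (_ : IsScalarTower ℝ A A) (_ : SMulCommClass ℝ A A),
      IsOpenMul (fun x y : A => x * y) ∧ ¬ IsOpenMul (arens1 (A := A)) ∧
        ¬ IsOpenMul (arens2 (A := A)) :=
  ⟨AA, inferInstance, inferInstance, inferInstance, inferInstance, inferInstance, AA_open,
    not_open _ arens1_U arens1_V, not_open _ arens2_U arens2_V⟩

end Pool.Agent.Results.MP_5068ad_an.OpenArens
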