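import Mathlib
import Pool.Agent.V1198.Arens

/-!
# MP_5068ad, Q1, P = uniformly open: commutative unital algebras with uniformly open multiplication
-/

set_option autoImplicit false
set_option linter.unusedSectionVars false

noncomputable section

open Filter Topology

namespace Pool.Agent.Results.MP_5068ad_an.UniformlyOpenGelfand

/-- Uniformly open multiplication. -/
def IsUniformlyOpenMul {E : Type} [NormedAddCommGroup E] (m : E → E → E) : Prop :=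
  ∀ ε : ℝ, 0 < ε → ∃ δ : ℝ, 0 < δ ∧ ∀ x y z : E, ‖z - m x y‖ < δ →
    ∃ x' y', ‖x' - x‖ < ε ∧ ‖y' - y‖ < ε ∧ m x' y' = z

section

variable {A : Type} [NormedCommRing A] [NormedAlgebra ℂ A]

theorem square_bound (h : IsUniformlyOpenMul (fun x y : A => x * y)) :
    ∃ c : ℝ, 0 < c ∧ ∀ x : A, c * ‖x‖ ^ 2 ≤ ‖x * x‖ := by
  obtain ⟨δ, hδ, hU⟩ := h 1 one_pos
  set d : ℝ := δ / (2 * (‖(1 : A)‖ + 1)) with hd
  have h1 : (0 : ℝ) ≤ ‖(1 : A)‖ := norm_nonneg _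
  have hdpos : 0 < d := by positivity
  have hd1 : d * ‖(1 : A)‖ < δ := by
    have e : d * (‖(1 : A)‖ + 1) = δ / 2 := by rw [hd]; field_simp
    nlinarith
  have key : ∀ X : A, d * ‖X‖ ≤ ‖X * X‖ + (1 + δ) := by
    intro X
    obtain ⟨x', v, hx', hv, hz⟩ := hU X 0 ((d : ℂ) • (1 : A)) (by
      show ‖(d : ℂ) • (1 : A) - X * 0‖ < δ
      rw [mul_zero, sub_zero, norm_smul, Complex.norm_real, Real.norm_eq_abs, abs_of_pos hdpos]
      exact hd1)
    rw [sub_zero] at hv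
    have hz' : x' * v = (d : ℂ) • (1 : A) := hz
    have e1 : X * v = (d : ℂ) • (1 : A) - (x' - X) * v := by rw [← hz']; ring
    have e2 : (d : ℂ) • X = X * X * v + (x' - X) * ((d : ℂ) • (1 : A) - (x' - X) * v) := by
      rw [← e1]
      calc (d : ℂ) • X = X * ((d : ℂ) • (1 : A)) := by rw [mul_smul_comm, mul_one]
        _ = X * X * v + (x' - X) * (X * v) := by rw [← hz']; ring
    have e3 : ‖(d : ℂ) • X‖ = d * ‖X‖ := by
      rw [norm_smul, Complex.norm_real, Real.norm_eq_abs, abs_of_pos hdpos]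
    have e4 : ‖(d : ℂ) • (1 : A)‖ < δ := by
      rw [norm_smul, Complex.norm_real, Real.norm_eq_abs, abs_of_pos hdpos]
      exact hd1
    rw [← e3, e2]
    have n1 : ‖X * X * v‖ ≤ ‖X * X‖ := by
      refine (norm_mul_le _ _).trans ?_
      exact mul_le_of_le_one_right (norm_nonneg _) hv.le
    have n2 : ‖(x' - X) * v‖ ≤ 1 := by
      refine (norm_mul_le _ _).trans ?_
      exact mul_le_one₀ hx'.le (norm_nonneg _) hv.le
    have n3 : ‖(x' - X) * ((d : ℂ) • (1 : A) - (x' - X) * v)‖ ≤ 1 + δ := by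
      refine (norm_mul_le _ _).trans ?_
      have := norm_sub_le ((d : ℂ) • (1 : A)) ((x' - X) * v)
      nlinarith [norm_nonneg (x' - X), norm_nonneg ((d : ℂ) • (1 : A) - (x' - X) * v)]
    exact (norm_add_le _ _).trans (add_le_add n1 n3)
  refine ⟨d ^ 2 / (4 * (1 + δ)), by positivity, fun x => ?_⟩
  by_cases hx : x = 0
  · rw [hx, norm_zero, mul_zero, norm_zero]
    simp
  have hxpos : 0 < ‖x‖ := norm_pos_iff.mpr hx
  set s : ℝ := 2 * (1 + δ) / (d * ‖x‖) with hs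
  have hspos : 0 < s := by positivity
  have hk := key ((s : ℂ) • x)
  have e5 : ‖(s : ℂ) • x‖ = s * ‖x‖ := by
    rw [norm_smul, Complex.norm_real, Real.norm_eq_abs, abs_of_pos hspos]
  have e6 : ‖((s : ℂ) • x) * ((s : ℂ) • x)‖ = s ^ 2 * ‖x * x‖ := by
    rw [smul_mul_smul_comm, norm_smul, norm_mul, Complex.norm_real, Real.norm_eq_abs,
      abs_of_pos hspos, sq]
  rw [e5, e6] at hk
  have e7 : d * (s * ‖x‖) = 2 * (1 + δ) := by rw [hs]; field_simp
  have e8 : (1 + δ) ≤ s ^ 2 * ‖x * x‖ := by linarith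
  have e9 : s ^ 2 = 4 * (1 + δ) ^ 2 / (d ^ 2 * ‖x‖ ^ 2) := by rw [hs]; ring
  rw [e9] at e8
  rw [div_mul_eq_mul_div, div_le_iff₀ (by positivity)]
  rw [div_mul_eq_mul_div, le_div_iff₀ (by positivity)] at e8
  have h2 : (1 + δ) * (d ^ 2 * ‖x‖ ^ 2) ≤ (1 + δ) * (‖x * x‖ * (4 * (1 + δ))) := by
    nlinarith
  exact le_of_mul_le_mul_left h2 (by positivity)

theorem pow_bound {c : ℝ} (hc : 0 < c) (h : ∀ x : A, c * ‖x‖ ^ 2 ≤ ‖x * x‖)
    (x : A) (k : ℕ) : (c * ‖x‖) ^ (2 ^ k) ≤ c * ‖x ^ (2 ^ k)‖ := by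
  induction k with
  | zero => simp
  | succ k ih =>
    have e1 : (c * ‖x‖) ^ (2 ^ (k + 1)) = ((c * ‖x‖) ^ (2 ^ k)) ^ 2 := by
      rw [pow_succ 2 k, pow_mul]
    have e2 : x ^ (2 ^ (k + 1)) = x ^ (2 ^ k) * x ^ (2 ^ k) := by
      rw [pow_succ 2 k, pow_mul, sq]
    rw [e1, e2]
    have h1 := h (x ^ (2 ^ k))
    have h2 : ((c * ‖x‖) ^ (2 ^ k)) ^ 2 ≤ (c * ‖x ^ (2 ^ k)‖) ^ 2 :=
      pow_le_pow_left₀ (by positivity) ih 2
    refine h2.trans ?_
    rw [mul_pow, sq c, mul_assoc]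
    exact mul_le_mul_of_nonneg_left h1 hc.le

theorem radius_bound [CompleteSpace A] {c : ℝ} (hc : 0 < c) (hc1 : c ≤ 1)
    (h : ∀ x : A, c * ‖x‖ ^ 2 ≤ ‖x * x‖) (x : A) :
    ENNReal.ofReal (c * ‖x‖) ≤ spectralRadius ℂ x := by
  have hlim := (spectrum.pow_norm_pow_one_div_tendsto_nhds_spectralRadius x).comp
    (tendsto_pow_atTop_atTop_of_one_lt (one_lt_two (α := ℕ)))
  refine ge_of_tendsto' hlim fun k => ?_
  refine ENNReal.ofReal_le_ofReal ?_
  have h1 := pow_bound hc h x k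
  have h2 : (c * ‖x‖) ^ (2 ^ k) ≤ ‖x ^ (2 ^ k)‖ :=
    h1.trans (mul_le_of_le_one_left (norm_nonneg _) hc1)
  have hne : (2 ^ k : ℕ) ≠ 0 := by positivity
  calc c * ‖x‖ = ((c * ‖x‖) ^ (2 ^ k)) ^ (1 / ((2 ^ k : ℕ) : ℝ)) := by
        rw [one_div, Real.pow_rpow_inv_natCast (by positivity) hne]
    _ ≤ ‖x ^ (2 ^ k)‖ ^ (1 / ((2 ^ k : ℕ) : ℝ)) :=
        Real.rpow_le_rpow (by positivity) h2 (by positivity)

end

/-- A commutative unital complex Banach algebra with uniformly open multiplication is, up to an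
equivalent norm, a uniform algebra: the Gelfand transform is bounded below. -/
theorem result (A : Type) [NormedCommRing A] [NormedAlgebra ℂ A] [CompleteSpace A]
    [Nontrivial A] (h : IsUniformlyOpenMul (fun x y : A => x * y)) :
    ∃ C : ℝ, 0 < C ∧ ∀ x : A, ∃ φ : WeakDual.characterSpace ℂ A, ‖x‖ ≤ C * ‖φ x‖ := by
  obtain ⟨c, hc, hsq⟩ := square_bound h
  have hc' : 0 < min c 1 := lt_min hc one_pos
  have hsq' : ∀ x : A, min c 1 * ‖x‖ ^ 2 ≤ ‖x * x‖ := fun x =>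
    (mul_le_mul_of_nonneg_right (min_le_left c 1) (by positivity)).trans (hsq x)
  refine ⟨(min c 1)⁻¹, by positivity, fun x => ?_⟩
  have hr := radius_bound hc' (min_le_right c 1) hsq' x
  obtain ⟨z, hz, hzr⟩ := spectrum.exists_nnnorm_eq_spectralRadius_of_nonempty
    (spectrum.nonempty x)
  obtain ⟨φ, hφ⟩ := WeakDual.CharacterSpace.mem_spectrum_iff_exists.mp hz
  refine ⟨φ, ?_⟩
  have hz2 : (‖z‖₊ : ENNReal) = ENNReal.ofReal ‖z‖ := by
    rw [← coe_nnnorm, ENNReal.ofReal_coe_nnreal]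
  rw [← hzr, hz2, ENNReal.ofReal_le_ofReal_iff (norm_nonneg z)] at hr
  rw [hφ, inv_mul_eq_div, le_div_iff₀ hc', mul_comm]
  exact hr

end Pool.Agent.Results.MP_5068ad_an.UniformlyOpenGelfand
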