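import Mathlib
import Pool.Agent.V1198.WO.Rep

/-!
# MP_5068ad, Q1: weakly open multiplication does not pass to the bidual
-/

set_option autoImplicit false
set_option linter.unusedSectionVars false

noncomputable section

open Filter Topology

namespace Pool.Agent.Results.MP_5068ad_an.WeaklyOpenArens

open Pool.Agent.V1198.AR Pool.Agent.V1198.WO

/-- The real Hilbert space `ℓ₂`. -/
abbrev L2 : Type := lp (fun _ : ℕ => ℝ) 2

/-- The standard Hilbert basis. -/
def hb : HilbertBasis ℕ ℝ L2 := HilbertBasis.ofRepr (LinearIsometryEquiv.refl ℝ L2)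

theorem hshift : Orthonormal ℝ (fun n : ℕ => hb (n + 1)) :=
  hb.orthonormal.comp (fun n : ℕ => n + 1) (add_left_injective 1)

/-- The unilateral shift. -/
def sh : L2 →ₗᵢ[ℝ] L2 := hshift.orthogonalFamily.linearIsometry

theorem sh_hb (n : ℕ) : sh (hb n) = hb (n + 1) := by
  have h : hb n = lp.single 2 n (1 : ℝ) := (hb.repr_symm_single n).symm
  rw [h]
  unfold sh
  rw [OrthogonalFamily.linearIsometry_apply_single]
  simp

/-- The shift as an operator. -/
def S : L2 →L[ℝ] L2 := sh.toContinuousLinearMap

/-- The backward shift. -/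
def S' : L2 →L[ℝ] L2 := ContinuousLinearMap.adjoint S

theorem S'S : S' * S = 1 :=
  (ContinuousLinearMap.norm_map_iff_adjoint_comp_self S).mp fun x => sh.norm_map x

theorem S'_hb : S' (hb 0) = 0 := by
  have h : ∀ n, inner ℝ (hb n) (S' (hb 0)) = (0 : ℝ) := by
    intro n
    unfold S'
    rw [ContinuousLinearMap.adjoint_inner_right]
    show inner ℝ (sh (hb n)) (hb 0) = (0 : ℝ)
    rw [sh_hb]
    exact hb.orthonormal.2 (Nat.succ_ne_zero n)
  have h2 : hb.repr (S' (hb 0)) = 0 := by
    ext n
    rw [HilbertBasis.repr_apply_apply, h]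
    rfl
  exact (LinearIsometryEquiv.map_eq_zero_iff hb.repr).mp h2

theorem SS' : S * S' ≠ 1 := by
  intro h
  have h1 : (S * S') (hb 0) = hb 0 := by rw [h]; rfl
  have h2 : (S * S') (hb 0) = 0 := by
    show S (S' (hb 0)) = 0
    rw [S'_hb, map_zero]
  have h3 := hb.orthonormal.1 0
  rw [← h1, h2, norm_zero] at h3
  exact zero_ne_one h3

/-- There is a Banach algebra whose multiplication is weakly open, while the multiplication of the
bidual is weakly open for neither of the two Arens products. -/
theorem result :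
    ∃ (A : Type) (_ : NonUnitalNormedRing A) (_ : NormedSpace ℝ A) (_ : CompleteSpace A)
      (_ : IsScalarTower ℝ A A) (_ : SMulCommClass ℝ A A),
      IsWeaklyOpenMul (fun x y : A => x * y) ∧ ¬ IsWeaklyOpenMul (arens1 (A := A)) ∧
        ¬ IsWeaklyOpenMul (arens2 (A := A)) :=
  ⟨AH L2, inferInstance, inferInstance, inferInstance, inferInstance, inferInstance,
    AH_weaklyOpen, not_arens S'S SS'⟩

end Pool.Agent.Results.MP_5068ad_an.WeaklyOpenArens
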